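import Pool.Agent.helper84.LP.SpecG
import Pool.Agent.helper73.IR.CT1

open scoped MatrixGroups ContDiff Topology UpperHalfPlane ComplexConjugate
open UpperHalfPlane MeasureTheory Filter Set

set_option autoImplicit false

namespace Pool.Agent.LP

open Pool.Agent.RS
open Pool.Agent.MS (bq BB BA SF pf)
open Pool.Agent.HV (FW)
open Pool.Agent.EN (XG MG mkX mkM fl pr)
open Pool.Agent.ER (Low LowJ)

noncomputable section

theorem CTD_key (W : Set SL(2, ℝ)) (εc l l0 : ℝ) (g : SL(2, ℝ)) (j : ℤ) (hεp : 0 < εc) (hε1 : εc ≤ 1 / 10) (hl : 0 ≤ l) (hl0 : l ≤ l0) (hl1 : l0 ≤ εc / 100)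
    (hJ : IR.JC W εc l l0 g j) : ∃ Z : ℝ, |Z - j * εc| ≤ 5 * εc ∧ ∃ (t u : ℝ) (e : SL(2, ℝ)), (e = 1 ∨ e = -1) ∧ |t| ≤ 3 / 2 ∧ |u| ≤ 1 / 4 ∧
      e * g * nM Z * aM t * lM u ∈ W := by
  obtain ⟨hj1, u, hu, x, τ, o, e, he, hx, hτ, ho, hm⟩ := hJ
  obtain ⟨a, ha⟩ : ∃ a : ℝ, a = l * u := ⟨_, rfl⟩
  obtain ⟨z, hz⟩ : ∃ z : ℝ, z = j * εc + x := ⟨_, rfl⟩
  rw [← ha, ← hz] at hm
  have ha0 : 0 ≤ a := by rw [ha]; exact mul_nonneg hl hu.1
  have ha1 : a ≤ l := by rw [ha]; exact mul_le_of_le_one_right hl hu.2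
  have ha2 : a ≤ εc / 100 := ha1.trans (hl0.trans hl1)
  have hx' := abs_le.1 hx
  have hj' := abs_le.1 hj1
  have hz1 : |z| ≤ 1 := by
    rw [hz, abs_le]
    constructor <;> linarith
  have haz : |a * z| ≤ 1 / 1000 := by
    rw [abs_mul, abs_of_nonneg ha0]
    calc a * |z| ≤ (1 / 1000) * 1 := mul_le_mul (by linarith) hz1 (abs_nonneg _) (by norm_num)
      _ = 1 / 1000 := by norm_num
  have haz' := abs_le.1 haz
  have hpos : 0 < 1 + a * z := by linarith
  have hge : 99 / 100 ≤ 1 + a * z := by linarith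
  have hmat := IR.CT1_mat a z τ o hpos
  have hm2 : e * g * (lM a * nM z * aM τ * lM o) ∈ W := by
    have h1 : e * g * (lM a * nM z * aM τ * lM o) = e * g * lM a * nM z * aM τ * lM o := by simp only [mul_assoc]
    rw [h1]
    exact hm
  rw [hmat] at hm2
  have hm3 : e * g * nM (z / (1 + a * z)) * aM (τ - 2 * Real.log (1 + a * z)) * lM (a * Real.exp τ / (1 + a * z) + o) ∈ W := by
    have h1 : e * g * nM (z / (1 + a * z)) * aM (τ - 2 * Real.log (1 + a * z)) * lM (a * Real.exp τ / (1 + a * z) + o) =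
        e * g * (nM (z / (1 + a * z)) * aM (τ - 2 * Real.log (1 + a * z)) * lM (a * Real.exp τ / (1 + a * z) + o)) := by simp only [mul_assoc]
    rw [h1]
    exact hm2
  have hzd : |z / (1 + a * z) - z| ≤ εc / 2 := by
    have h1 : z / (1 + a * z) - z = -(a * z * z) / (1 + a * z) := by
      rw [eq_div_iff hpos.ne', sub_mul, div_mul_cancel₀ _ hpos.ne']
      ring
    rw [h1, abs_div, abs_of_pos hpos, div_le_iff₀ hpos, abs_neg, abs_mul, abs_mul, abs_of_nonneg ha0]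
    have h2 : |z| * |z| ≤ 1 * 1 := mul_le_mul hz1 hz1 (abs_nonneg _) (by norm_num)
    calc a * |z| * |z| = a * (|z| * |z|) := by ring
      _ ≤ εc / 100 * (1 * 1) := mul_le_mul ha2 h2 (by positivity) (by positivity)
      _ ≤ εc / 2 * (1 + a * z) := by nlinarith
  have hzd' := abs_le.1 hzd
  refine ⟨z / (1 + a * z), ?_, τ - 2 * Real.log (1 + a * z), a * Real.exp τ / (1 + a * z) + o, e, he, ?_, ?_, hm3⟩
  · rw [abs_le]
    constructor <;> linarith
  · have h1 : Real.log (1 + a * z) ≤ 1 / 1000 := by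
      have := Real.log_le_sub_one_of_pos hpos
      linarith
    have h2 : -(1 / 10) ≤ Real.log (1 + a * z) := by
      have := Real.one_sub_inv_le_log_of_pos hpos
      have h3 : (1 + a * z)⁻¹ ≤ 11 / 10 := by
        rw [inv_le_comm₀ hpos (by norm_num)]
        linarith
      linarith
    have hτ' := abs_le.1 hτ
    rw [abs_le]
    constructor <;> linarith
  · have h1 : Real.exp τ ≤ 3 := by
      have h2 : τ ≤ 1 := by
        have := (abs_le.1 hτ).2
        linarith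
      have h3 := Real.exp_le_exp.2 h2
      have h4 := Real.exp_one_lt_d9
      linarith
    have h2 : 0 ≤ a * Real.exp τ / (1 + a * z) := by positivity
    have h3 : a * Real.exp τ / (1 + a * z) ≤ 1 / 100 := by
      rw [div_le_iff₀ hpos]
      calc a * Real.exp τ ≤ 1 / 1000 * 3 := mul_le_mul (by linarith) h1 (Real.exp_pos _).le (by norm_num)
        _ ≤ 1 / 100 * (1 + a * z) := by linarith
    have ho' := abs_le.1 ho
    rw [abs_le]
    constructor <;> linarith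

theorem CTD_conj (hGLC : RS.GLC_stmt) (s k x0 X t u : ℝ) :
    nM (x0 + Real.exp (-s) * X) * aM t * lM u * aM (-(s + k)) = nM x0 * aM (-s) * nM X * aM t * lM (Real.exp (-s) * u) * aM (-k) := by
  obtain ⟨-, -, -, -, -, -, -, -, -, -, haa, hnn, -, -, -, -, -, hna, hla, -⟩ := hGLC
  have h1 : aM (-(s + k)) = aM (-s) * aM (-k) := by
    rw [← haa]
    congr 1
    ring
  have h2 : lM u * aM (-s) = aM (-s) * lM (Real.exp (-s) * u) := hla u (-s)
  have h3 : aM t * aM (-s) = aM (-s) * aM t := by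
    rw [← haa, ← haa, add_comm]
  have h4 : nM (Real.exp (-s) * X) * aM (-s) = aM (-s) * nM X := by
    rw [hna, ← mul_assoc, ← Real.exp_add]
    simp
  rw [h1, hnn]
  calc nM x0 * nM (Real.exp (-s) * X) * aM t * lM u * (aM (-s) * aM (-k))
      = nM x0 * nM (Real.exp (-s) * X) * aM t * (lM u * aM (-s)) * aM (-k) := by simp only [mul_assoc]
    _ = nM x0 * nM (Real.exp (-s) * X) * (aM t * aM (-s)) * lM (Real.exp (-s) * u) * aM (-k) := by
        rw [h2]
        simp only [mul_assoc]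
    _ = nM x0 * (nM (Real.exp (-s) * X) * aM (-s)) * aM t * lM (Real.exp (-s) * u) * aM (-k) := by
        rw [h3]
        simp only [mul_assoc]
    _ = nM x0 * aM (-s) * nM X * aM t * lM (Real.exp (-s) * u) * aM (-k) := by
        rw [h4]
        simp only [mul_assoc]

theorem CTD_mem (hGLC : RS.GLC_stmt) (Γ : Subgroup SL(2, ℝ)) (A : Finset SL(2, ℝ)) (b ρ s k x0 z t u : ℝ) (e g : SL(2, ℝ))
    (h : e * g * nM z * aM t * lM u * aM (-(s + k)) ∈ FW Γ A b ρ) :
    e * (g * nM x0 * aM (-s)) * nM ((z - x0) * Real.exp s) * aM t * lM (Real.exp (-s) * u) * aM (-k) ∈ FW Γ A b ρ := by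
  have h2 : x0 + Real.exp (-s) * ((z - x0) * Real.exp s) = z := by
    have h3 : Real.exp (-s) * ((z - x0) * Real.exp s) = (z - x0) * (Real.exp (-s) * Real.exp s) := by ring
    rw [h3, ← Real.exp_add]
    simp
  have h4 := CTD_conj hGLC s k x0 ((z - x0) * Real.exp s) t u
  rw [h2] at h4
  have h5 : e * g * nM z * aM t * lM u * aM (-(s + k)) = e * g * (nM z * aM t * lM u * aM (-(s + k))) := by simp only [mul_assoc]
  rw [h5, h4] at h
  have h6 : e * (g * nM x0 * aM (-s)) * nM ((z - x0) * Real.exp s) * aM t * lM (Real.exp (-s) * u) * aM (-k) =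
      e * g * (nM x0 * aM (-s) * nM ((z - x0) * Real.exp s) * aM t * lM (Real.exp (-s) * u) * aM (-k)) := by simp only [mul_assoc]
  rw [h6]
  exact h

/-- counting of the cells -/
theorem CTD_count (J : Finset ℤ) (Z : ℤ → ℝ) (x0 E εc : ℝ) (hZ : ∀ j ∈ J, |(Z j - j * εc) * E| ≤ 1 / 2) :
    ((J.image fun j : ℤ => ⌊(j : ℝ) * εc * E⌋).card : ℝ) ≤ 4 * ((J.image fun j => ⌊(Z j - x0) * E⌋).card : ℝ) := by
  have hsub : (J.image fun j : ℤ => ⌊(j : ℝ) * εc * E⌋) ⊆
      (J.image fun j => ⌊(Z j - x0) * E⌋).biUnion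
        (fun m => (J.filter fun j => ⌊(Z j - x0) * E⌋ = m).image fun j : ℤ => ⌊(j : ℝ) * εc * E⌋) := by
    intro v hv
    obtain ⟨j, hj, rfl⟩ := Finset.mem_image.1 hv
    exact Finset.mem_biUnion.2 ⟨⌊(Z j - x0) * E⌋, Finset.mem_image_of_mem _ hj,
      Finset.mem_image.2 ⟨j, Finset.mem_filter.2 ⟨hj, rfl⟩, rfl⟩⟩
  have hfib : ∀ m ∈ J.image (fun j => ⌊(Z j - x0) * E⌋),
      ((((J.filter fun j => ⌊(Z j - x0) * E⌋ = m).image fun j : ℤ => ⌊(j : ℝ) * εc * E⌋).card : ℕ) : ℝ) ≤ 4 := by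
    intro m _
    have h1 := IR.CT1_card ((J.filter fun j => ⌊(Z j - x0) * E⌋ = m).image fun j : ℤ => ⌊(j : ℝ) * εc * E⌋)
      (x0 * E + m - 1 / 2 - 1) (x0 * E + m + 3 / 2) (by linarith) (by
      intro v hv
      obtain ⟨j, hj, rfl⟩ := Finset.mem_image.1 hv
      obtain ⟨hj1, hj2⟩ := Finset.mem_filter.1 hj
      have h4 := Int.floor_le ((Z j - x0) * E)
      have h5 := Int.lt_floor_add_one ((Z j - x0) * E)
      rw [hj2] at h4 h5
      have h6 := Int.floor_le ((j : ℝ) * εc * E)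
      have h7 := Int.lt_floor_add_one ((j : ℝ) * εc * E)
      have h9 := abs_le.1 (hZ j hj1)
      have h10 : (Z j - x0) * E = (Z j - j * εc) * E + (j * εc) * E - x0 * E := by ring
      constructor <;> linarith)
    linarith
  have h1 : ((J.image fun j : ℤ => ⌊(j : ℝ) * εc * E⌋).card : ℝ) ≤
      ∑ m ∈ J.image (fun j => ⌊(Z j - x0) * E⌋),
        ((((J.filter fun j => ⌊(Z j - x0) * E⌋ = m).image fun j : ℤ => ⌊(j : ℝ) * εc * E⌋).card : ℕ) : ℝ) := by
    have h2 := (Finset.card_le_card hsub).trans Finset.card_biUnion_le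
    exact_mod_cast h2
  calc ((J.image fun j : ℤ => ⌊(j : ℝ) * εc * E⌋).card : ℝ)
      ≤ ∑ m ∈ J.image (fun j => ⌊(Z j - x0) * E⌋), (4 : ℝ) := h1.trans (Finset.sum_le_sum hfib)
    _ = 4 * ((J.image (fun j => ⌊(Z j - x0) * E⌋)).card : ℝ) := by
      rw [Finset.sum_const, nsmul_eq_mul, mul_comm]

theorem CTD_proof (hCTB : IR.CTB_stmt) (hGLC : RS.GLC_stmt) : CTD_stmt := by
  intro Γ hΓ
  obtain ⟨C0, hC0, hC⟩ := hCTB Γ hΓ
  refine ⟨max 1 (4 * C0), le_max_left _ _, ?_⟩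
  intro b s k εc l l0 y A g J hb hb1 hs hk hεp hεs hl hl0 hl1 hJ
  have hA0 : (0 : ℝ) ≤ A.card := Nat.cast_nonneg _
  rcases J.eq_empty_or_nonempty with rfl | ⟨j0, hj0⟩
  · simp only [Finset.image_empty, Finset.card_empty, Nat.cast_zero]
    positivity
  have hesk : Real.exp (-(s + k)) ≤ 1 := Real.exp_le_one_iff.2 (by linarith)
  have hε1 : εc ≤ 1 / 10 := by linarith
  have key : ∀ j ∈ J, ∃ Z : ℝ, |Z - j * εc| ≤ 5 * εc ∧ ∃ (t u : ℝ) (e : SL(2, ℝ)), (e = 1 ∨ e = -1) ∧ |t| ≤ 3 / 2 ∧ |u| ≤ 1 / 4 ∧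
      e * g * nM Z * aM t * lM u ∈ {h : SL(2, ℝ) | h * aM (-(s + k)) ∈ FW Γ A b (Real.exp (-k))} :=
    fun j hj => CTD_key _ εc l l0 g j hεp hε1 hl hl0 hl1 (hJ j hj).2
  choose! Z hZ1 hZ2 using key
  have hE0 : 0 < Real.exp (s + k) := Real.exp_pos _
  have hEinv : Real.exp (-(s + k)) * Real.exp (s + k) = 1 := by
    rw [← Real.exp_add]
    simp
  have hεE : 5 * εc * Real.exp (s + k) ≤ 1 / 2 := by
    have h1 : 10 * εc * Real.exp (s + k) ≤ Real.exp (-(s + k)) * Real.exp (s + k) := mul_le_mul_of_nonneg_right hεs hE0.le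
    rw [hEinv] at h1
    linarith
  have hss : Real.exp (-s) * Real.exp s = 1 := by
    rw [← Real.exp_add]
    simp
  have hX : ∀ j ∈ J, |(Z j - j0 * εc) * Real.exp s| ≤ 4 := by
    intro j hj
    have h1 := abs_le.1 (hZ1 j hj)
    have h2 := abs_le.1 (hJ j hj).1
    have h3 := abs_le.1 (hJ j0 hj0).1
    have h4 : |Z j - j0 * εc| ≤ 5 * εc + 2 * Real.exp (-s) := by
      rw [abs_le]
      constructor <;> linarith
    have h5 : Real.exp (-(s + k)) ≤ Real.exp (-s) := Real.exp_le_exp.2 (by linarith)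
    have h6 : |Z j - j0 * εc| ≤ 4 * Real.exp (-s) := by
      have h7 := Real.exp_pos (-s)
      linarith
    rw [abs_mul, abs_of_pos (Real.exp_pos s)]
    calc |Z j - j0 * εc| * Real.exp s ≤ 4 * Real.exp (-s) * Real.exp s := mul_le_mul_of_nonneg_right h6 (Real.exp_pos s).le
      _ = 4 := by rw [mul_assoc, hss, mul_one]
  have hT : ((J.image fun j => ⌊(Z j - j0 * εc) * Real.exp (s + k)⌋).card : ℝ) ≤ C0 * A.card := by
    refine hC b k A (g * nM (j0 * εc) * aM (-s)) (J.image fun j => ⌊(Z j - j0 * εc) * Real.exp (s + k)⌋) hb hb1 hk ?_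
    intro m hm
    obtain ⟨j, hj, hjm⟩ := Finset.mem_image.1 hm
    obtain ⟨t, u, e, he, ht, hu, hmem⟩ := hZ2 j hj
    rw [Set.mem_ofPred_eq] at hmem
    have h0 : (Z j - j0 * εc) * Real.exp s * Real.exp k = (Z j - j0 * εc) * Real.exp (s + k) := by
      rw [mul_assoc, ← Real.exp_add]
    have h8 := Int.floor_le ((Z j - j0 * εc) * Real.exp (s + k))
    have h9 := Int.lt_floor_add_one ((Z j - j0 * εc) * Real.exp (s + k))
    have h10 : ⌊(Z j - j0 * εc) * Real.exp (s + k)⌋ = m := hjm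
    rw [h10] at h8 h9
    refine ⟨(Z j - j0 * εc) * Real.exp s, t, Real.exp (-s) * u, e, he, hX j hj, ht, ?_, ?_, ?_, ?_⟩
    · rw [abs_mul, abs_of_pos (Real.exp_pos _)]
      have h1 : Real.exp (-s) ≤ 1 := Real.exp_le_one_iff.2 (by linarith)
      calc Real.exp (-s) * |u| ≤ 1 * |u| := mul_le_mul_of_nonneg_right h1 (abs_nonneg _)
        _ ≤ 1 / 4 := by linarith
    · rw [h0]
      exact h8
    · rw [h0]
      exact h9
    · exact CTD_mem hGLC Γ A b (Real.exp (-k)) s k (j0 * εc) (Z j) t u e g hmem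
  have hcount := CTD_count J Z (j0 * εc) (Real.exp (s + k)) εc (by
    intro j hj
    rw [abs_mul, abs_of_pos hE0]
    exact (mul_le_mul_of_nonneg_right (hZ1 j hj) hE0.le).trans hεE)
  calc ((J.image fun j : ℤ => ⌊(j : ℝ) * εc * Real.exp (s + k)⌋).card : ℝ)
      ≤ 4 * ((J.image fun j => ⌊(Z j - j0 * εc) * Real.exp (s + k)⌋).card : ℝ) := hcount
    _ ≤ 4 * (C0 * A.card) := by linarith
    _ = 4 * C0 * A.card := by ring
    _ ≤ max 1 (4 * C0) * A.card := mul_le_mul_of_nonneg_right (le_max_right _ _) hA0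

end

end Pool.Agent.LP
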