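import Pool.Agent.helper84.LP.SpecP

set_option autoImplicit false

open MeasureTheory Set

namespace Pool.Agent.LP

theorem LCL_ee_cont (s : ℝ) : Continuous fun v : ℝ => ee (s * v) := by
  unfold ee
  fun_prop

theorem LCL_cont (lam : ℝ) (D : Finset ℤ) (b : ℤ → ℂ) :
    Continuous fun v : ℝ => ‖∑ d ∈ D, b d * ee (lam * d * v)‖ ^ 2 := by
  refine (Continuous.norm ?_).pow 2
  exact continuous_finsetSum _ (fun d _ => continuous_const.mul (LCL_ee_cont (lam * d)))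

theorem LCL_proof (hNEA : NEA_stmt) (hNFR : NFR_stmt) (hKVU : KVU_stmt) : LCL_stmt := by
  obtain ⟨C, hC1, hNEA'⟩ := hNEA
  refine ⟨8 * C, by linarith, ?_⟩
  intro H ϑ lam Q2 X d0 A U V' D hH hlam1 hlam4 hU hU2 hX hd0 hA hdens hV' hV'2 hQ2 hsum b
  obtain ⟨hVm, hVsub, hVft, hVd⟩ := hKVU U X d0 A hU hU2 hX hd0 hA
  have hH2 : 1 ≤ 2 * H := by omega
  have hHpos : (0 : ℝ) < ((2 * H : ℕ) : ℝ) := by exact_mod_cast hH2
  have hϑ : 0 ≤ ϑ := by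
    have h1 := hdens 0
    have h2 : (0 : ℝ) ≤ volume.real (U ∩ Icc 0 (0 + 1 / ((2 * H : ℕ) : ℝ))) := measureReal_nonneg
    have h3 : 0 ≤ ϑ / ((2 * H : ℕ) : ℝ) := h2.trans h1
    by_contra h4
    have h5 : ϑ / ((2 * H : ℕ) : ℝ) < 0 := div_neg_of_neg_of_pos (lt_of_not_ge h4) hHpos
    linarith
  obtain ⟨V, hVdef⟩ : ∃ V : Set ℝ, V = (fun u : ℝ => A + mm X u / d0 ^ 2) '' U := ⟨_, rfl⟩
  rw [← hVdef] at hVm hVsub hV'2
  have hft : ∀ s : ℝ, ‖∫ v in V, ee (s * v)‖ = 1 / d0 ^ 2 * ‖kk U X (s / d0 ^ 2)‖ := by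
    intro s
    rw [hVdef]
    exact hVft s
  have hd : ∀ y : ℝ, volume.real (V ∩ Icc y (y + 1 / ((2 * H : ℕ) : ℝ))) ≤ 4 * ϑ / ((2 * H : ℕ) : ℝ) := by
    intro y
    rw [hVdef]
    exact hVd (2 * H) ϑ hH2 hdens y
  have hd0pos : (99 / 100 : ℝ) ≤ d0 := by
    have h1 := (abs_le.mp hd0).1
    linarith
  have hd0sq : 1 / d0 ^ 2 ≤ 2 := by
    rw [div_le_iff₀ (by positivity)]
    nlinarith
  have hd0sq0 : 0 ≤ 1 / d0 ^ 2 := by positivity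
  have hQ1 : 0 ≤ C * (4 * ϑ) := by positivity
  have hmain := hNFR H lam (C * (4 * ϑ)) (2 * Q2) V D hH hVm hVsub hQ1 (by
    intro r b'
    refine hNEA' (2 * H) (4 * ϑ) lam V (D.filter (fun d : ℤ => r ≤ d ∧ d < r + 2 * H)) r b' hH2 hlam1 hlam4 (by positivity) hVm hVsub hd ?_
    intro d hd'
    have h1 := (Finset.mem_filter.mp hd').2
    refine ⟨h1.1, ?_⟩
    push_cast
    exact h1.2) (by
    intro d hd'
    have h1 := hsum d hd'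
    have h2 : ∑ d' ∈ D.filter (fun d' : ℤ => (H : ℤ) ≤ |d' - d|), ‖∫ v in V, ee (lam * ((d' : ℝ) - d) * v)‖ =
        1 / d0 ^ 2 * ∑ d' ∈ D.filter (fun d' : ℤ => (H : ℤ) ≤ |d' - d|), ‖kk U X (lam / d0 ^ 2 * ((d' : ℝ) - d))‖ := by
      rw [Finset.mul_sum]
      refine Finset.sum_congr rfl ?_
      intro d' _
      rw [hft]
      have h3 : lam * ((d' : ℝ) - d) / d0 ^ 2 = lam / d0 ^ 2 * ((d' : ℝ) - d) := by ring
      rw [h3]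
    rw [h2]
    calc 1 / d0 ^ 2 * ∑ d' ∈ D.filter (fun d' : ℤ => (H : ℤ) ≤ |d' - d|), ‖kk U X (lam / d0 ^ 2 * ((d' : ℝ) - d))‖
        ≤ 1 / d0 ^ 2 * Q2 := mul_le_mul_of_nonneg_left h1 hd0sq0
      _ ≤ 2 * Q2 := mul_le_mul_of_nonneg_right hd0sq hQ2) b
  have hint : IntegrableOn (fun v : ℝ => ‖∑ d ∈ D, b d * ee (lam * d * v)‖ ^ 2) V volume :=
    ((LCL_cont lam D b).continuousOn.integrableOn_compact isCompact_Icc).mono_set hVsub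
  have hmono : ∫ v in V', ‖∑ d ∈ D, b d * ee (lam * d * v)‖ ^ 2 ≤ ∫ v in V, ‖∑ d ∈ D, b d * ee (lam * d * v)‖ ^ 2 :=
    setIntegral_mono_set hint (Filter.Eventually.of_forall fun v => by positivity) (Filter.Eventually.of_forall hV'2)
  have hS : 0 ≤ ∑ d ∈ D, ‖b d‖ ^ 2 := Finset.sum_nonneg fun d _ => by positivity
  calc ∫ v in V', ‖∑ d ∈ D, b d * ee (lam * d * v)‖ ^ 2 ≤ (2 * (C * (4 * ϑ)) + 2 * Q2) * ∑ d ∈ D, ‖b d‖ ^ 2 := hmono.trans hmain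
    _ ≤ 8 * C * (ϑ + Q2) * ∑ d ∈ D, ‖b d‖ ^ 2 := by
      refine mul_le_mul_of_nonneg_right ?_ hS
      nlinarith

end Pool.Agent.LP
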